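import Pool.Agent.W70.HRC.Stm

/-!
# Density of tuples with blow-up
-/

set_option autoImplicit false

open Finset

namespace Pool.Agent.W973.HRC

open Pool.Agent.W70.HRC

/-- average over a finite type -/
noncomputable def av {β : Type*} [Fintype β] (f : β → ℝ) : ℝ := (∑ b, f b) / Fintype.card β

lemma av_pow {β : Type*} [Fintype β] [Nonempty β] (f : β → ℝ) (hf : ∀ b, 0 ≤ f b) (m : ℕ) :
    (av f) ^ m ≤ av (fun b => f b ^ m) := by
  have h := Real.pow_arith_mean_le_arith_mean_pow (univ : Finset β)
    (fun _ => 1 / (Fintype.card β : ℝ)) f (fun _ _ => by positivity) (by simp)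
    (fun b _ => hf b) m
  rw [← mul_sum, ← mul_sum] at h
  rw [av, av, div_eq_mul_one_div, mul_comm, div_eq_mul_one_div (∑ b, f b ^ m), mul_comm (∑ b, f b ^ m)]
  exact h

lemma av_nonneg {β : Type*} [Fintype β] (f : β → ℝ) (hf : ∀ b, 0 ≤ f b) : 0 ≤ av f :=
  div_nonneg (sum_nonneg fun b _ => hf b) (by positivity)

lemma av_mono {β : Type*} [Fintype β] {f g : β → ℝ} (h : ∀ b, f b ≤ g b) : av f ≤ av g :=
  div_le_div_of_nonneg_right (sum_le_sum fun b _ => h b) (by positivity)

lemma av_equiv {β γ : Type*} [Fintype β] [Fintype γ] (e : β ≃ γ) (f : γ → ℝ) :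
    av (fun b => f (e b)) = av f := by
  rw [av, av, Fintype.card_congr e, e.sum_comp]

lemma av_prod {β γ : Type*} [Fintype β] [Fintype γ] (f : β × γ → ℝ) :
    av f = av (fun b => av (fun c => f (b, c))) := by
  rw [av, av, Fintype.card_prod, Fintype.sum_prod_type]
  simp only [av]
  rw [← sum_div, div_div, Nat.cast_mul, mul_comm (Fintype.card β : ℝ)]

lemma av_comm {β γ : Type*} [Fintype β] [Fintype γ] (f : β → γ → ℝ) :
    av (fun b => av (fun c => f b c)) = av (fun c => av (fun b => f b c)) := by
  simp only [av]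
  rw [← sum_div, ← sum_div, sum_comm, div_div, div_div, mul_comm (Fintype.card β : ℝ)]

lemma av_pi {α : Type*} [Fintype α] (K : ℕ) (f : α → ℝ) :
    av (fun h : Fin K → α => ∏ j, f (h j)) = (av f) ^ K := by
  rw [av, av, div_pow, Fintype.sum_pow]
  simp

/-- blow-up -/
lemma blowup {α : Type*} [Fintype α] [Nonempty α] (K : ℕ) : ∀ (T : ℕ) (F : (Fin T → α) → ℝ),
    (∀ z, 0 ≤ F z) → (av F) ^ (K ^ T) ≤
      av (fun H : Fin T → Fin K → α => ∏ c : Fin T → Fin K, F (fun g => H g (c g))) := by
  intro T
  induction T with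
  | zero =>
    intro F hF
    rw [pow_zero, pow_one]
    simp only [av, Fintype.card_unique, Nat.cast_one, div_one, univ_unique, sum_singleton,
      prod_singleton]
    exact le_of_eq (congrArg F (Subsingleton.elim _ _))
  | succ T ih =>
    intro F hF
    have e1 : av F = av (fun v : α => av (fun z' : Fin T → α => F (Fin.cons v z'))) := by
      rw [← av_equiv (Fin.consEquiv (fun _ : Fin (T + 1) => α)) F, av_prod]
      rfl
    have e2 : av (fun H : Fin (T + 1) → Fin K → α =>
        ∏ c : Fin (T + 1) → Fin K, F (fun g => H g (c g))) =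
        av (fun h : Fin K → α => av (fun H' : Fin T → Fin K → α =>
          ∏ c' : Fin T → Fin K, ∏ j : Fin K, F (Fin.cons (h j) (fun g => H' g (c' g))))) := by
      rw [← av_equiv (Fin.consEquiv (fun _ : Fin (T + 1) => Fin K → α)), av_prod]
      congr 1
      ext h
      congr 1
      ext H'
      rw [← (Fin.consEquiv (fun _ : Fin (T + 1) => Fin K)).prod_comp, Fintype.prod_prod_type,
        prod_comm]
      refine prod_congr rfl fun c' _ => prod_congr rfl fun j _ => congrArg F ?_
      ext g
      refine Fin.cases ?_ (fun i => ?_) g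
      · simp [Fin.consEquiv]
      · simp [Fin.consEquiv]
    have e3 : av (fun h : Fin K → α => av (fun z' : Fin T → α =>
        ∏ j : Fin K, F (Fin.cons (h j) z'))) =
        av (fun z' : Fin T → α => (av (fun v : α => F (Fin.cons v z'))) ^ K) := by
      rw [av_comm]
      congr 1
      ext z'
      exact av_pi K (fun v => F (Fin.cons v z'))
    rw [e2, e1, av_comm, pow_succ' K T, pow_mul]
    have h1 : (av (fun z' : Fin T → α => av (fun v : α => F (Fin.cons v z')))) ^ K ≤
        av (fun h : Fin K → α => av (fun z' : Fin T → α =>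
          ∏ j : Fin K, F (Fin.cons (h j) z'))) := by
      rw [e3]
      exact av_pow _ (fun z' => av_nonneg _ fun v => hF _) K
    have h0 : 0 ≤ (av (fun z' : Fin T → α => av (fun v : α => F (Fin.cons v z')))) ^ K :=
      pow_nonneg (av_nonneg _ fun z' => av_nonneg _ fun v => hF _) K
    refine (pow_le_pow_left₀ h0 h1 _).trans ?_
    refine (av_pow _ (fun h => av_nonneg _ fun z' => prod_nonneg fun j _ => hF _) _).trans ?_
    refine av_mono fun h => ?_
    exact ih (fun z' => ∏ j : Fin K, F (Fin.cons (h j) z')) (fun z' => prod_nonneg fun j _ => hF _)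

/-- few functions are not injective -/
lemma noninj {ι α : Type*} [Fintype ι] [DecidableEq ι] [Fintype α] [DecidableEq α] [Nonempty α]
    [DecidablePred (fun f : ι → α => ¬ Function.Injective f)] :
    ((univ.filter (fun f : ι → α => ¬ Function.Injective f)).card : ℝ) * Fintype.card α ≤
      (Fintype.card ι : ℝ) ^ 2 * (Fintype.card α : ℝ) ^ Fintype.card ι := by
  have h1 : (univ.filter (fun f : ι → α => ¬ Function.Injective f)) ⊆
      (univ : Finset (ι × ι)).biUnion (fun x =>
        univ.filter (fun f : ι → α => x.1 ≠ x.2 ∧ f x.1 = f x.2)) := by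
    intro f hf
    rw [mem_filter, Function.Injective] at hf
    push Not at hf
    obtain ⟨-, i, j, hij, hne⟩ := hf
    rw [mem_biUnion]
    exact ⟨(i, j), mem_univ _, mem_filter.2 ⟨mem_univ _, hne, hij⟩⟩
  have h2 : ∀ x : ι × ι, (univ.filter (fun f : ι → α => x.1 ≠ x.2 ∧ f x.1 = f x.2)).card *
      Fintype.card α ≤ Fintype.card α ^ Fintype.card ι := by
    rintro ⟨i, j⟩
    by_cases hij : i = j
    · subst hij
      simp
    · rw [← Fintype.card_fun, ← card_univ (α := α), ← card_product, ← card_univ]
      refine card_le_card_of_injOn (fun y : (ι → α) × α => Function.update y.1 i y.2)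
        (fun _ _ => mem_coe.2 (mem_univ _)) ?_
      rintro ⟨f, v⟩ hf ⟨g, w⟩ hg hfg
      rw [mem_coe, mem_product, mem_filter] at hf hg
      simp only at hf hg hfg
      have hv : v = w := by
        have := congrFun hfg i
        simpa using this
      have hj : ∀ l, l ≠ i → f l = g l := by
        intro l hl
        have := congrFun hfg l
        simpa [Function.update_of_ne hl] using this
      have hff : f = g := by
        funext l
        by_cases hl : l = i
        · subst hl
          rw [hf.1.2.2, hg.1.2.2]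
          exact hj j (Ne.symm hij)
        · exact hj l hl
      rw [hff, hv]
  have h3 : (univ.filter (fun f : ι → α => ¬ Function.Injective f)).card * Fintype.card α ≤
      Fintype.card ι ^ 2 * Fintype.card α ^ Fintype.card ι := by
    calc (univ.filter (fun f : ι → α => ¬ Function.Injective f)).card * Fintype.card α
        ≤ (∑ x : ι × ι, (univ.filter (fun f : ι → α => x.1 ≠ x.2 ∧ f x.1 = f x.2)).card) *
          Fintype.card α := Nat.mul_le_mul_right _ ((card_le_card h1).trans card_biUnion_le)
      _ = ∑ x : ι × ι, (univ.filter (fun f : ι → α => x.1 ≠ x.2 ∧ f x.1 = f x.2)).card *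
          Fintype.card α := sum_mul _ _ _
      _ ≤ ∑ _x : ι × ι, Fintype.card α ^ Fintype.card ι := sum_le_sum fun x _ => h2 x
      _ = Fintype.card ι ^ 2 * Fintype.card α ^ Fintype.card ι := by
          rw [sum_const, card_univ, Fintype.card_prod, smul_eq_mul, sq]
  exact_mod_cast h3

open Classical in
/-- the number of maps whose restriction to `S` is good -/
lemma card_restrict {α : Type*} [Fintype α] [DecidableEq α] (T m : ℕ) (S : Finset (Fin T)) (hS : S.card = m)
    (G : Finset α → Prop) :
    (univ.filter (fun z : Fin T → α => Set.InjOn z (S : Set (Fin T)) ∧ G (S.image z))).card =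
      (univ.filter (fun y : Fin m → α => Function.Injective y ∧ G (univ.image y))).card *
        Fintype.card α ^ (T - m) := by
  let e := Equiv.piEquivPiSubtypeProd (fun i : Fin T => i ∈ S) (fun _ => α)
  let o : Fin m ≃ {i // i ∈ S} := (S.orderIsoOfFin hS).toEquiv
  let e' : (Fin T → α) ≃ (Fin m → α) × ({i // i ∉ S} → α) :=
    e.trans ((Equiv.arrowCongr o.symm (Equiv.refl α)).prodCongr (Equiv.refl _))
  have he : ∀ z i, (e' z).1 i = z (o i) := fun z i => rfl
  have hc : Fintype.card ({i // i ∉ S} → α) = Fintype.card α ^ (T - m) := by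
    rw [Fintype.card_fun, Fintype.card_subtype_compl, Fintype.card_coe, hS, Fintype.card_fin]
  rw [← hc, ← card_univ, ← card_product]
  refine card_equiv e' fun z => ?_
  rw [mem_filter, mem_product, mem_filter]
  have hval : ∀ i : Fin m, ((o i : {i // i ∈ S}) : Fin T) ∈ S := fun i => (o i).2
  have h1 : Set.InjOn z (S : Set (Fin T)) ↔ Function.Injective (e' z).1 := by
    constructor
    · intro h i j hij
      rw [he, he] at hij
      have := h (mem_coe.2 (hval i)) (mem_coe.2 (hval j)) hij
      exact o.injective (Subtype.ext this)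
    · intro h i hi j hj hij
      have hi' : i = o (o.symm ⟨i, mem_coe.1 hi⟩) := by simp
      have hj' : j = o (o.symm ⟨j, mem_coe.1 hj⟩) := by simp
      have hij' : (e' z).1 (o.symm ⟨i, mem_coe.1 hi⟩) = (e' z).1 (o.symm ⟨j, mem_coe.1 hj⟩) := by
        rw [he, he, ← hi', ← hj']
        exact hij
      have := h hij'
      rw [hi', hj', this]
  have h2 : S.image z = univ.image (e' z).1 := by
    ext a
    simp only [mem_image, mem_univ, true_and]
    constructor
    · rintro ⟨i, hi, rfl⟩
      refine ⟨o.symm ⟨i, hi⟩, ?_⟩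
      rw [he]; simp
    · rintro ⟨i, rfl⟩
      exact ⟨_, hval i, (he z i).symm⟩
  rw [h1, h2]
  simp

open Classical in
/-- main estimate over a finite type -/
lemma main_type {α : Type*} [Fintype α] [DecidableEq α] [Nonempty α] (k T K : ℕ) (hT : k + 1 ≤ T) (ε : ℝ)
    (hε : 0 < ε) (G : Finset α → Prop)
    (hn : 4 * ((T : ℝ) ^ 2 / (T.choose (k + 1) * ε / 2) +
      ((T * K : ℕ) : ℝ) ^ 2 / (T.choose (k + 1) * ε / 2) ^ (K ^ T)) ≤ Fintype.card α)
    (hg : ((univ.filter (fun y : Fin (k + 1) → α => Function.Injective y ∧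
      G (univ.image y))).card : ℝ) <
        (1 / (T.choose (k + 1) : ℝ) - ε) * (Fintype.card α : ℝ) ^ (k + 1)) :
    (T.choose (k + 1) * ε / 2) ^ (K ^ T) / 2 * (Fintype.card α : ℝ) ^ (T * K) ≤
      ((univ.filter (fun H : Fin T → Fin K → α =>
        Function.Injective (fun x : Fin T × Fin K => H x.1 x.2) ∧
        ¬ ∃ (S : Finset (Fin T)) (c : Fin T → Fin K), S.card = k + 1 ∧
          G (S.image (fun g => H g (c g))))).card : ℝ) := by
  set n : ℝ := ((Fintype.card α : ℕ) : ℝ) with hndef
  have hn0 : 0 < n := by rw [hndef]; exact_mod_cast Fintype.card_pos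
  set C : ℝ := ((T.choose (k + 1) : ℕ) : ℝ) with hC
  have hC0 : 0 < C := by rw [hC]; exact_mod_cast Nat.choose_pos hT
  set c : ℝ := C * ε / 2 with hc
  have hc0 : 0 < c := by positivity
  have hnA : (T : ℝ) ^ 2 / c ≤ n := by
    have h1 : 0 ≤ (T : ℝ) ^ 2 / c := by positivity
    have h2 : 0 ≤ ((T * K : ℕ) : ℝ) ^ 2 / c ^ (K ^ T) := by positivity
    linarith
  have hnB : 2 * (((T * K : ℕ) : ℝ) ^ 2 / c ^ (K ^ T)) ≤ n := by
    have h1 : 0 ≤ (T : ℝ) ^ 2 / c := by positivity
    have h2 : 0 ≤ ((T * K : ℕ) : ℝ) ^ 2 / c ^ (K ^ T) := by positivity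
    linarith
  -- the set of bad maps
  let P : (Fin T → α) → Finset (Fin T) → Prop := fun z S =>
    Set.InjOn z (S : Set (Fin T)) ∧ G (S.image z)
  have hsum : (((univ : Finset (Fin T)).powersetCard (k + 1)).sum fun S =>
      ((univ.filter (fun z : Fin T → α => P z S)).card : ℝ)) < (1 - C * ε) * n ^ T := by
    have h1 : ∀ S ∈ (univ : Finset (Fin T)).powersetCard (k + 1),
        ((univ.filter (fun z : Fin T → α => P z S)).card : ℝ) =
        ((univ.filter (fun y : Fin (k + 1) → α => Function.Injective y ∧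
          G (univ.image y))).card : ℝ) * n ^ (T - (k + 1)) := by
      intro S hS
      have := card_restrict (α := α) T (k + 1) S (mem_powersetCard.1 hS).2 G
      rw [this]
      push_cast
      rfl
    rw [sum_congr rfl h1, sum_const, card_powersetCard, card_univ, Fintype.card_fin, nsmul_eq_mul,
      ← hC]
    have h2 : n ^ T = n ^ (k + 1) * n ^ (T - (k + 1)) := by
      rw [← pow_add]; congr 1; omega
    have h3 : (1 - C * ε) * n ^ T = C * (((1 / C - ε) * n ^ (k + 1)) * n ^ (T - (k + 1))) := by
      rw [h2]; field_simp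
    rw [h3]
    exact mul_lt_mul_of_pos_left (mul_lt_mul_of_pos_right hg (by positivity)) hC0
  have hunion : ((univ.filter (fun z : Fin T → α =>
      ∃ S, S.card = k + 1 ∧ P z S)).card : ℝ) < (1 - C * ε) * n ^ T := by
    refine lt_of_le_of_lt ?_ hsum
    have h1 : (univ.filter (fun z : Fin T → α => ∃ S, S.card = k + 1 ∧ P z S)) ⊆
        ((univ : Finset (Fin T)).powersetCard (k + 1)).biUnion (fun S =>
          univ.filter (fun z : Fin T → α => P z S)) := by
      intro z hz
      rw [mem_filter] at hz
      obtain ⟨-, S, hS, hP⟩ := hz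
      rw [mem_biUnion]
      exact ⟨S, mem_powersetCard.2 ⟨subset_univ _, hS⟩, mem_filter.2 ⟨mem_univ _, hP⟩⟩
    have h2 := (card_le_card h1).trans card_biUnion_le
    exact_mod_cast h2
  let B : (Fin T → α) → Prop := fun z => Function.Injective z ∧ ∀ S : Finset (Fin T),
    S.card = k + 1 → ¬ G (S.image z)
  have hB : c * n ^ T ≤ ((univ.filter (fun z : Fin T → α => B z)).card : ℝ) := by
    have h1 : (univ : Finset (Fin T → α)) ⊆ (univ.filter (fun z : Fin T → α => B z)) ∪
        ((univ.filter (fun z : Fin T → α => ∃ S, S.card = k + 1 ∧ P z S)) ∪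
        (univ.filter (fun z : Fin T → α => ¬ Function.Injective z))) := by
      intro z _
      rw [mem_union, mem_union, mem_filter, mem_filter, mem_filter]
      by_cases hz : Function.Injective z
      · by_cases h : ∃ S, S.card = k + 1 ∧ P z S
        · exact Or.inr (Or.inl ⟨mem_univ _, h⟩)
        · refine Or.inl ⟨mem_univ _, hz, fun S hS hG => h ⟨S, hS, hz.injOn, hG⟩⟩
      · exact Or.inr (Or.inr ⟨mem_univ _, hz⟩)
    have h2 := (card_le_card h1).trans ((card_union_le _ _).trans
      (Nat.add_le_add_left (card_union_le _ _) _))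
    have h3 : n ^ T ≤ ((univ.filter (fun z : Fin T → α => B z)).card : ℝ) +
        (((univ.filter (fun z : Fin T → α => ∃ S, S.card = k + 1 ∧ P z S)).card : ℝ) +
        ((univ.filter (fun z : Fin T → α => ¬ Function.Injective z)).card : ℝ)) := by
      have h4 : ((univ : Finset (Fin T → α)).card : ℝ) = n ^ T := by
        rw [card_univ, Fintype.card_fun, Fintype.card_fin]; push_cast; rfl
      rw [← h4]
      exact_mod_cast h2
    have h5 := noninj (ι := Fin T) (α := α)
    rw [Fintype.card_fin, ← hndef] at h5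
    have h6 : ((univ.filter (fun z : Fin T → α => ¬ Function.Injective z)).card : ℝ) ≤
        c * n ^ T := by
      have h7 : (T : ℝ) ^ 2 ≤ c * n := by
        rw [div_le_iff₀ hc0] at hnA; linarith
      have h8 : ((univ.filter (fun z : Fin T → α => ¬ Function.Injective z)).card : ℝ) * n ≤
          (c * n ^ T) * n := by
        refine h5.trans ?_
        have := mul_le_mul_of_nonneg_right h7 (by positivity : 0 ≤ n ^ T)
        linarith
      exact le_of_mul_le_mul_right h8 hn0
    have h9 : (1 - C * ε) * n ^ T = n ^ T - 2 * (c * n ^ T) := by rw [hc]; ring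
    linarith
  -- blow up
  have hblow := blowup (α := α) K T (fun z => if B z then 1 else 0)
    (fun z => by split_ifs <;> norm_num)
  have hav1 : c ≤ av (fun z : Fin T → α => if B z then (1 : ℝ) else 0) := by
    rw [av, le_div_iff₀ (by exact_mod_cast Fintype.card_pos), Fintype.card_fun, Fintype.card_fin,
      sum_boole]
    push_cast
    exact hB
  have hav2 : av (fun H : Fin T → Fin K → α => ∏ c : Fin T → Fin K,
      (if B (fun g => H g (c g)) then (1 : ℝ) else 0)) =
      ((univ.filter (fun H : Fin T → Fin K → α =>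
        ∀ c : Fin T → Fin K, B (fun g => H g (c g)))).card : ℝ) / n ^ (T * K) := by
    rw [av]
    have h1 : ∀ H : Fin T → Fin K → α, (∏ c : Fin T → Fin K,
        (if B (fun g => H g (c g)) then (1 : ℝ) else 0)) =
        if ∀ c : Fin T → Fin K, B (fun g => H g (c g)) then 1 else 0 := by
      intro H
      rw [Finset.prod_boole]
      simp
    rw [sum_congr rfl fun H _ => h1 H, sum_boole, Fintype.card_fun, Fintype.card_fun,
      Fintype.card_fin, Fintype.card_fin, ← pow_mul]
    push_cast
    rw [mul_comm K T]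
  have hH : c ^ (K ^ T) * n ^ (T * K) ≤ ((univ.filter (fun H : Fin T → Fin K → α =>
      ∀ c : Fin T → Fin K, B (fun g => H g (c g)))).card : ℝ) := by
    have h1 := (pow_le_pow_left₀ hc0.le hav1 (K ^ T)).trans hblow
    rw [hav2, le_div_iff₀ (by positivity)] at h1
    exact h1
  -- injective `H`
  have hni : ((univ.filter (fun H : Fin T → Fin K → α =>
      ¬ Function.Injective (fun x : Fin T × Fin K => H x.1 x.2))).card : ℝ) ≤
      c ^ (K ^ T) / 2 * n ^ (T * K) := by
    have h5 := noninj (ι := Fin T × Fin K) (α := α)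
    have h6 : (univ.filter (fun H : Fin T → Fin K → α =>
        ¬ Function.Injective (fun x : Fin T × Fin K => H x.1 x.2))).card ≤
        (univ.filter (fun f : Fin T × Fin K → α => ¬ Function.Injective f)).card := by
      refine card_le_card_of_injOn
        (fun (H : Fin T → Fin K → α) (x : Fin T × Fin K) => H x.1 x.2) ?_ ?_
      · intro H hH
        rw [mem_coe, mem_filter] at hH ⊢
        exact ⟨mem_univ _, hH.2⟩
      · intro H _ H' _ h
        funext g i
        exact congrFun h (g, i)
    refine le_trans (by exact_mod_cast h6) (?_ : ((univ.filter (fun f : Fin T × Fin K → α =>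
      ¬ Function.Injective f)).card : ℝ) ≤ _)
    rw [Fintype.card_prod, Fintype.card_fin, Fintype.card_fin, ← hndef] at h5
    have hcK : 0 < c ^ (K ^ T) := by positivity
    have h7 : ((T * K : ℕ) : ℝ) ^ 2 ≤ c ^ (K ^ T) / 2 * n := by
      have h8 : ((T * K : ℕ) : ℝ) ^ 2 / c ^ (K ^ T) ≤ n / 2 := by linarith
      rw [div_le_iff₀ hcK] at h8
      linarith
    refine le_of_mul_le_mul_right (h5.trans ?_) hn0
    have := mul_le_mul_of_nonneg_right h7 (by positivity : 0 ≤ n ^ (T * K))
    linarith
  have hfin : (univ.filter (fun H : Fin T → Fin K → α =>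
      ∀ c : Fin T → Fin K, B (fun g => H g (c g)))) ⊆
      (univ.filter (fun H : Fin T → Fin K → α =>
        Function.Injective (fun x : Fin T × Fin K => H x.1 x.2) ∧
        ¬ ∃ (S : Finset (Fin T)) (c : Fin T → Fin K), S.card = k + 1 ∧
          G (S.image (fun g => H g (c g))))) ∪
      (univ.filter (fun H : Fin T → Fin K → α =>
      ¬ Function.Injective (fun x : Fin T × Fin K => H x.1 x.2))) := by
    intro H hH
    rw [mem_filter] at hH
    rw [mem_union, mem_filter, mem_filter]
    by_cases hi : Function.Injective (fun x : Fin T × Fin K => H x.1 x.2)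
    · refine Or.inl ⟨mem_univ _, hi, ?_⟩
      rintro ⟨S, c', hS, hG⟩
      exact (hH.2 c').2 S hS hG
    · exact Or.inr ⟨mem_univ _, hi⟩
  have hle := (card_le_card hfin).trans (card_union_le _ _)
  have hle' : ((univ.filter (fun H : Fin T → Fin K → α =>
      ∀ c : Fin T → Fin K, B (fun g => H g (c g)))).card : ℝ) ≤
      ((univ.filter (fun H : Fin T → Fin K → α =>
        Function.Injective (fun x : Fin T × Fin K => H x.1 x.2) ∧
        ¬ ∃ (S : Finset (Fin T)) (c : Fin T → Fin K), S.card = k + 1 ∧
          G (S.image (fun g => H g (c g))))).card : ℝ) +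
      ((univ.filter (fun H : Fin T → Fin K → α =>
      ¬ Function.Injective (fun x : Fin T × Fin K => H x.1 x.2))).card : ℝ) := by
    exact_mod_cast hle
  linarith

/-- DENk -/
theorem denk : S_DENk := by
  classical
  intro k T hT K hK ε hε
  set C : ℝ := ((T.choose (k + 1) : ℕ) : ℝ) with hC
  have hC0 : 0 < C := by rw [hC]; exact_mod_cast Nat.choose_pos hT
  obtain ⟨n₁, hn₁⟩ := exists_nat_ge (4 * ((T : ℝ) ^ 2 / (C * ε / 2) +
      ((T * K : ℕ) : ℝ) ^ 2 / (C * ε / 2) ^ (K ^ T)))
  refine ⟨(C * ε / 2) ^ (K ^ T) / 4, max n₁ 1, by positivity, ?_⟩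
  intro V G hV hE
  by_contra hcon
  push Not at hcon
  have hVpos : 0 < V.card := lt_of_lt_of_le one_pos ((le_max_right _ _).trans hV)
  have : Nonempty {x // x ∈ V} := by
    obtain ⟨x, hx⟩ := card_pos.1 hVpos
    exact ⟨⟨x, hx⟩⟩
  have hcard : Fintype.card {x // x ∈ V} = V.card := Fintype.card_coe V
  have hg : ((univ.filter (fun y : Fin (k + 1) → {x // x ∈ V} => Function.Injective y ∧
      G ((univ.image y).image Subtype.val))).card : ℝ) <
        (1 / (T.choose (k + 1) : ℝ) - ε) * (Fintype.card {x // x ∈ V} : ℝ) ^ (k + 1) := by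
    rw [hcard]
    refine lt_of_le_of_lt ?_ hcon
    norm_cast
    refine card_le_card_of_injOn (fun y i => (y i : ℕ)) ?_ ?_
    · intro y hy
      rw [mem_coe, mem_filter] at hy
      rw [mem_coe, mem_filter, Fintype.mem_piFinset]
      refine ⟨fun i => (y i).2, fun i j hij => hy.2.1 (Subtype.ext hij), ?_⟩
      have := hy.2.2
      rw [image_image] at this
      exact this
    · intro y _ y' _ h
      funext i
      exact Subtype.ext (congrFun h i)
  have hn : 4 * ((T : ℝ) ^ 2 / (T.choose (k + 1) * ε / 2) +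
      ((T * K : ℕ) : ℝ) ^ 2 / (T.choose (k + 1) * ε / 2) ^ (K ^ T)) ≤
      Fintype.card {x // x ∈ V} := by
    rw [hcard]
    refine hn₁.trans ?_
    exact_mod_cast (le_max_left _ _).trans hV
  have hm := main_type (α := {x // x ∈ V}) k T K hT ε hε
    (fun F => G (F.image Subtype.val)) hn hg
  rw [hcard] at hm
  have hle : ((univ.filter (fun H : Fin T → Fin K → {x // x ∈ V} =>
        Function.Injective (fun x : Fin T × Fin K => H x.1 x.2) ∧
        ¬ ∃ (S : Finset (Fin T)) (c : Fin T → Fin K), S.card = k + 1 ∧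
          G ((S.image (fun g => H g (c g))).image Subtype.val))).card : ℝ) ≤
      ((ExC G k T K V).card : ℝ) := by
    norm_cast
    refine card_le_card_of_injOn (fun H g i => (H g i : ℕ)) ?_ ?_
    · intro H hH
      rw [mem_coe, mem_filter] at hH
      rw [mem_coe, ExC, mem_filter, Fintype.mem_piFinset]
      refine ⟨fun g => Fintype.mem_piFinset.2 fun i => (H g i).2,
        fun x y hxy => hH.2.1 (Subtype.ext hxy), ?_⟩
      rintro ⟨S, c, hS, hG⟩
      refine hH.2.2 ⟨S, c, hS, ?_⟩
      rw [image_image]
      exact hG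
    · intro H _ H' _ h
      funext g i
      exact Subtype.ext (congrFun (congrFun h g) i)
  have hpos : 0 < (C * ε / 2) ^ (K ^ T) / 4 * (V.card : ℝ) ^ (T * K) := by positivity
  have h2 : (C * ε / 2) ^ (K ^ T) / 2 * (V.card : ℝ) ^ (T * K) =
      2 * ((C * ε / 2) ^ (K ^ T) / 4 * (V.card : ℝ) ^ (T * K)) := by ring
  rw [← hC] at hm
  rw [h2] at hm
  linarith

end Pool.Agent.W973.HRC
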